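import Pool.Agent.R246.SK.Defs

/-!
# Project SK (MP_3f9991_gt): summability of the kernel with weights
-/

set_option autoImplicit false

open scoped ContDiff ComplexConjugate
open Filter MeasureTheory

namespace Pool.Agent.R962.SK

open Pool.Agent.R246.SK

lemma summable_wt : Summable (fun n : ℤ => 1 / (1 + |(n : ℝ)|) ^ 2) := by
  have h1 : Summable (fun n : ℤ => 1 / (n : ℝ) ^ 2) :=
    Real.summable_one_div_int_pow.mpr (by norm_num)
  have h2 : Summable (fun n : ℤ => if n = 0 then (1 : ℝ) else 0) :=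
    (hasSum_ite_eq (0 : ℤ) (1 : ℝ)).summable
  refine Summable.of_nonneg_of_le (fun n => by positivity) (fun n => ?_) (h1.add h2)
  by_cases hn : n = 0
  · subst hn; simp
  · simp only [hn, if_false, add_zero]
    have hn' : 0 < |(n : ℝ)| := abs_pos.mpr (by exact_mod_cast hn)
    apply one_div_le_one_div_of_le
    · rw [← sq_abs]; positivity
    · rw [← sq_abs (n : ℝ)]
      apply pow_le_pow_left₀ hn'.le
      linarith

lemma key_ineq (x y A C : ℝ) (hx : 0 ≤ x) (hy : 0 ≤ y) (hA : 0 ≤ A)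
    (h : A * (1 + (x + y)) ^ 12 ≤ C) :
    A * (2 * (x * y)) * (1 + x) ^ 2 * (1 + y) ^ 2 ≤
      2 * C * (1 / (1 + x) ^ 2 * (1 / (1 + y) ^ 2)) := by
  have h1 : (1 + x) ^ 6 * (1 + y) ^ 6 ≤ (1 + (x + y)) ^ 12 := by
    have a1 : (1 + x) ^ 6 ≤ (1 + (x + y)) ^ 6 := pow_le_pow_left₀ (by positivity) (by linarith) 6
    have a2 : (1 + y) ^ 6 ≤ (1 + (x + y)) ^ 6 := pow_le_pow_left₀ (by positivity) (by linarith) 6
    calc (1 + x) ^ 6 * (1 + y) ^ 6 ≤ (1 + (x + y)) ^ 6 * (1 + (x + y)) ^ 6 :=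
          mul_le_mul a1 a2 (by positivity) (by positivity)
      _ = (1 + (x + y)) ^ 12 := by ring
  have h2 : A * ((1 + x) ^ 6 * (1 + y) ^ 6) ≤ C := (mul_le_mul_of_nonneg_left h1 hA).trans h
  have h3 : x * y * ((1 + x) ^ 4 * (1 + y) ^ 4) ≤ (1 + x) ^ 6 * (1 + y) ^ 6 := by
    have a1 : x ≤ (1 + x) ^ 2 := by nlinarith
    have a2 : y ≤ (1 + y) ^ 2 := by nlinarith
    calc x * y * ((1 + x) ^ 4 * (1 + y) ^ 4)
        ≤ (1 + x) ^ 2 * (1 + y) ^ 2 * ((1 + x) ^ 4 * (1 + y) ^ 4) := by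
          apply mul_le_mul_of_nonneg_right (mul_le_mul a1 a2 hy (by positivity)) (by positivity)
      _ = (1 + x) ^ 6 * (1 + y) ^ 6 := by ring
  have h4 : A * (x * y * ((1 + x) ^ 4 * (1 + y) ^ 4)) ≤ C :=
    (mul_le_mul_of_nonneg_left h3 hA).trans h2
  have hp : 0 < (1 + x) ^ 2 * (1 + y) ^ 2 := by positivity
  have e : 2 * C * (1 / (1 + x) ^ 2 * (1 / (1 + y) ^ 2)) =
      2 * C / ((1 + x) ^ 2 * (1 + y) ^ 2) := by
    field_simp
  rw [e, le_div_iff₀ hp]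
  calc A * (2 * (x * y)) * (1 + x) ^ 2 * (1 + y) ^ 2 * ((1 + x) ^ 2 * (1 + y) ^ 2)
      = 2 * (A * (x * y * ((1 + x) ^ 4 * (1 + y) ^ 4))) := by ring
    _ ≤ 2 * C := by linarith

theorem s_ks (h1 : S_FT1) : S_KS := by
  intro a ha
  have hSP : SP (fun t => (a t : ℂ)) := by
    refine ⟨Complex.ofRealCLM.contDiff.comp ha.1, fun t => ?_⟩
    show ((a (t + 2 * Real.pi) : ℝ) : ℂ) = ((a t : ℝ) : ℂ)
    rw [ha.2.1]
  obtain ⟨C, hC⟩ := (h1 _ hSP).1 12
  have hC' : ∀ n : ℤ, ‖ac a n‖ * (1 + |(n : ℝ)|) ^ 12 ≤ C := hC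
  have hC0 : 0 ≤ C := le_trans (by positivity) (hC' 0)
  have hs : Summable (fun p : ℤ × ℤ => 2 * C * (1 / (1 + |(p.1 : ℝ)|) ^ 2 *
      (1 / (1 + |(p.2 : ℝ)|) ^ 2))) :=
    (summable_wt.mul_of_nonneg summable_wt (fun n => by positivity)
      (fun n => by positivity)).mul_left (2 * C)
  refine Summable.of_nonneg_of_le (fun p => by positivity) (fun p => ?_) hs
  obtain ⟨m, k⟩ := p
  simp only
  have hK : ‖Kk a m k‖ = ‖ac a (m - k)‖ * |(|(m : ℝ)| * |(k : ℝ)| - m * k)| := by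
    unfold Kk
    rw [norm_mul]
    congr 1
    rw [← Complex.ofReal_intCast, Complex.norm_real, Real.norm_eq_abs]
    push_cast
    rfl
  by_cases hmk : 0 ≤ (m : ℝ) * k
  · have h0 : |(m : ℝ)| * |(k : ℝ)| - m * k = 0 := by
      rw [← abs_mul, abs_of_nonneg hmk, sub_self]
    rw [hK, h0]
    simp only [abs_zero, mul_zero, zero_mul]
    positivity
  · push Not at hmk
    have h2 : |(m : ℝ)| * |(k : ℝ)| - m * k = 2 * (|(m : ℝ)| * |(k : ℝ)|) := by
      rw [← abs_mul, abs_of_neg hmk]; ring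
    have h3 : |((m - k : ℤ) : ℝ)| = |(m : ℝ)| + |(k : ℝ)| := by
      push_cast
      rcases mul_neg_iff.mp hmk with ⟨a1, a2⟩ | ⟨a1, a2⟩
      · rw [abs_of_pos a1, abs_of_neg a2, abs_of_pos (by linarith)]; ring
      · rw [abs_of_neg a1, abs_of_pos a2, abs_of_neg (by linarith)]; ring
    rw [hK, h2, abs_of_nonneg (by positivity)]
    apply key_ineq _ _ _ _ (abs_nonneg _) (abs_nonneg _) (norm_nonneg _)
    have := hC' (m - k)
    rwa [h3] at this

end Pool.Agent.R962.SK
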